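import Pool.Agent.Helper87.Mor.Final

set_option autoImplicit false

namespace Pool.Agent.Results.MP_09dbe8_nt.SharpCompositeCount

/-- For all large `x`, at most `x exp(-(1/30) (log x)^(2/3) (log log x)^(1/3))` odd composite
numbers `n ≤ x` satisfy the Morley congruence, even if it is only required modulo `n`. -/
theorem result : ∃ x₀ : ℕ, ∀ x : ℕ, x₀ ≤ x →
    ((((Finset.Icc 1 x).filter (fun n : ℕ => Odd n ∧ 1 < n ∧ ¬ n.Prime ∧
        (((n - 1).choose ((n - 1) / 2) : ℕ) : ℤ) ≡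
          (-1) ^ ((n - 1) / 2) * 4 ^ (n - 1) [ZMOD (n : ℤ)])).card : ℕ) : ℝ) ≤
      x * Real.exp (-(1 / 30) * (Real.log x) ^ (2 / 3 : ℝ) *
        (Real.log (Real.log x)) ^ (1 / 3 : ℝ)) := by
  obtain ⟨x₀, h⟩ := Pool.Agent.Helper87.Mor.count_bound
  refine ⟨x₀, fun x hx => ?_⟩
  refine le_trans (le_of_eq ?_) (h x hx)
  congr 2
  ext n
  rw [Pool.Agent.Helper22.Morley.mem_Sol, Finset.mem_filter, Finset.mem_Icc]
  rfl

end Pool.Agent.Results.MP_09dbe8_nt.SharpCompositeCount
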